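import Pool.Agent.W2helper1.DG.Stm

/-! PIECE R3geo of project DG (helper1) -/

set_option autoImplicit false

open Set Filter Topology

namespace Pool.Agent.W2helper24.DG

open Pool.Agent.W2helper1.DG
open Pool.Agent.Results.MP_2da123_co.DimSix (IsPolytopal joinComplete)

noncomputable section

abbrev E3 : Type := EuclideanSpace ℝ (Fin 3)

def pt (x y z : ℝ) : E3 := !₂[x, y, z]

def lf (α β γ : ℝ) : E3 →L[ℝ] ℝ :=
  α • EuclideanSpace.proj (𝕜 := ℝ) (0 : Fin 3) + β • EuclideanSpace.proj (𝕜 := ℝ) (1 : Fin 3) +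
    γ • EuclideanSpace.proj (𝕜 := ℝ) (2 : Fin 3)

theorem lf_pt (α β γ x y z : ℝ) : lf α β γ (pt x y z) = α * x + β * y + γ * z := by
  simp [lf, pt]

theorem eq_pt (v : E3) : v = pt (v 0) (v 1) (v 2) := by
  ext i
  fin_cases i <;> rfl

theorem pt_add (x y z x' y' z' : ℝ) : pt x y z + pt x' y' z' = pt (x + x') (y + y') (z + z') := by
  ext i
  fin_cases i <;> rfl

theorem smul_pt (a x y z : ℝ) : a • pt x y z = pt (a * x) (a * y) (a * z) := by
  ext i
  fin_cases i <;> rfl

theorem pt_lin (l : E3 →L[ℝ] ℝ) (x y z : ℝ) :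
    l (pt x y z) = x * l (pt 1 0 0) + y * l (pt 0 1 0) + z * l (pt 0 0 1) := by
  have : pt x y z = x • pt 1 0 0 + y • pt 0 1 0 + z • pt 0 0 1 := by
    simp [smul_pt, pt_add]
  rw [this]
  simp

/-- the real number of an index -/
def nn {N : ℕ} (i : Fin N) : ℝ := ((i : ℕ) : ℝ)

theorem nn_nonneg {N : ℕ} (i : Fin N) : 0 ≤ nn i := by unfold nn; positivity

theorem nn_lt {N : ℕ} {i j : Fin N} : nn i < nn j ↔ i < j := by
  unfold nn; rw [Nat.cast_lt]; rfl

theorem nn_le {N : ℕ} {i j : Fin N} : nn i ≤ nn j ↔ i ≤ j := by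
  unfold nn; rw [Nat.cast_le]; rfl

theorem nn_sq {N : ℕ} {i j : Fin N} (h : i ≠ j) : 1 ≤ (nn j - nn i) ^ 2 := by
  rcases lt_or_gt_of_ne h with h1 | h1
  · have h2 : (i : ℕ) + 1 ≤ (j : ℕ) := h1
    have h3 : nn i + 1 ≤ nn j := by unfold nn; exact_mod_cast h2
    nlinarith
  · have h2 : (j : ℕ) + 1 ≤ (i : ℕ) := h1
    have h3 : nn j + 1 ≤ nn i := by unfold nn; exact_mod_cast h2
    nlinarith

def LL {N : ℕ} (e : Fin N × Fin N) (x : ℝ) : ℝ := (x - nn e.1) * (x - nn e.2)

def hh {N : ℕ} (F : Finset (Fin N × Fin N)) (i : Fin N) : ℝ := ∑ e ∈ F, |LL e (nn i)|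

theorem core_edge {N : ℕ} (F : Finset (Fin N × Fin N)) (H : ℝ)
    (hH : ∑ e ∈ F, (1 + nn e.1 * nn e.2) < H) (i k : Fin N) (hmem : (i, k) ∈ F)
    (hs : ∀ e ∈ F, e ≠ (i, k) → 0 ≤ LL e (nn i) * LL e (nn k)) :
    ∃ α β γ b : ℝ, (∀ j, j = i ∨ j = k → α * nn j + β * nn j ^ 2 + γ * hh F j + b = 0) ∧
      (∀ j, j ≠ i → j ≠ k → 0 < α * nn j + β * nn j ^ 2 + γ * hh F j + b) ∧
      0 < α * 0 + β * 1 + γ * H + b := by
  classical
  set s : Fin N × Fin N → ℝ := fun e => if 0 ≤ LL e (nn i) ∧ 0 ≤ LL e (nn k) then 1 else -1 with hsdef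
  have hsabs : ∀ e, |s e| = 1 := by
    intro e; simp only [hsdef]; split_ifs <;> simp
  have hsik : ∀ e ∈ F.erase (i, k), s e * LL e (nn i) = |LL e (nn i)| ∧
      s e * LL e (nn k) = |LL e (nn k)| := by
    intro e he
    have hne := Finset.ne_of_mem_erase he
    have hpr := hs e (Finset.mem_of_mem_erase he) hne
    simp only [hsdef]
    split_ifs with h
    · rw [one_mul, one_mul, abs_of_nonneg h.1, abs_of_nonneg h.2]
      exact ⟨rfl, rfl⟩
    · have h1 : LL e (nn i) ≤ 0 ∧ LL e (nn k) ≤ 0 := by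
        by_cases h2 : 0 ≤ LL e (nn i)
        · have h3 : LL e (nn k) < 0 := by
            by_contra hcon
            exact h ⟨h2, not_lt.mp hcon⟩
          refine ⟨?_, h3.le⟩
          by_contra hcon
          push Not at hcon
          nlinarith
        · push Not at h2
          refine ⟨h2.le, ?_⟩
          by_contra hcon
          push Not at hcon
          nlinarith
      rw [abs_of_nonpos h1.1, abs_of_nonpos h1.2]
      constructor <;> ring
  have hsle : ∀ e x, s e * LL e x ≤ |LL e x| := by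
    intro e x
    calc s e * LL e x ≤ |s e * LL e x| := le_abs_self _
      _ = |LL e x| := by rw [abs_mul, hsabs, one_mul]
  have key : ∀ x y : ℝ, (∑ e ∈ F.erase (i, k), s e * (nn e.1 + nn e.2)) * x +
      (-∑ e ∈ F.erase (i, k), s e) * y + -∑ e ∈ F.erase (i, k), s e * (nn e.1 * nn e.2) =
      -∑ e ∈ F.erase (i, k), s e * (y - (nn e.1 + nn e.2) * x + nn e.1 * nn e.2) := by
    intro x y
    rw [← Finset.sum_neg_distrib, ← Finset.sum_neg_distrib, ← Finset.sum_neg_distrib,
      Finset.sum_mul, Finset.sum_mul, ← Finset.sum_add_distrib, ← Finset.sum_add_distrib]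
    apply Finset.sum_congr rfl
    intro e _
    ring
  have key2 : ∀ x : ℝ, (∑ e ∈ F.erase (i, k), s e * (nn e.1 + nn e.2)) * x +
      (-∑ e ∈ F.erase (i, k), s e) * x ^ 2 + -∑ e ∈ F.erase (i, k), s e * (nn e.1 * nn e.2) =
      -∑ e ∈ F.erase (i, k), s e * LL e x := by
    intro x
    rw [key x (x ^ 2)]
    congr 1
    apply Finset.sum_congr rfl
    intro e _
    unfold LL
    ring
  have hh1 : ∀ j, hh F j = |LL (i, k) (nn j)| + ∑ e ∈ F.erase (i, k), |LL e (nn j)| := by
    intro j
    unfold hh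
    rw [Finset.add_sum_erase F (fun e => |LL e (nn j)|) hmem]
  refine ⟨∑ e ∈ F.erase (i, k), s e * (nn e.1 + nn e.2), -∑ e ∈ F.erase (i, k), s e, 1,
    -∑ e ∈ F.erase (i, k), s e * (nn e.1 * nn e.2), ?_, ?_, ?_⟩
  · intro j hj
    have h1 := key2 (nn j)
    have h2 : |LL (i, k) (nn j)| = 0 := by
      rcases hj with rfl | rfl <;> simp [LL]
    have h3 : ∑ e ∈ F.erase (i, k), |LL e (nn j)| = ∑ e ∈ F.erase (i, k), s e * LL e (nn j) := by
      apply Finset.sum_congr rfl
      intro e he
      rcases hj with rfl | rfl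
      · exact (hsik e he).1.symm
      · exact (hsik e he).2.symm
    rw [hh1, h2, h3]
    linarith
  · intro j hji hjk
    have h1 := key2 (nn j)
    have h2 : 0 < |LL (i, k) (nn j)| := by
      apply abs_pos.mpr
      unfold LL
      apply mul_ne_zero
      · intro h0
        have := nn_sq (Ne.symm hji)
        have h3 : nn j - nn i = 0 := h0
        rw [h3] at this
        norm_num at this
      · intro h0
        have := nn_sq (Ne.symm hjk)
        have h3 : nn j - nn k = 0 := h0
        rw [h3] at this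
        norm_num at this
    have h3 : ∑ e ∈ F.erase (i, k), s e * LL e (nn j) ≤ ∑ e ∈ F.erase (i, k), |LL e (nn j)| :=
      Finset.sum_le_sum fun e _ => hsle e _
    rw [hh1]
    linarith
  · have h1 := key 0 1
    have h2 : ∑ e ∈ F.erase (i, k), s e * (1 - (nn e.1 + nn e.2) * 0 + nn e.1 * nn e.2) ≤
        ∑ e ∈ F, (1 + nn e.1 * nn e.2) := by
      calc _ ≤ ∑ e ∈ F.erase (i, k), (1 + nn e.1 * nn e.2) := by
            apply Finset.sum_le_sum
            intro e _
            have h3 : 0 ≤ nn e.1 * nn e.2 := mul_nonneg (nn_nonneg _) (nn_nonneg _)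
            have h4 : s e ≤ 1 := (le_abs_self _).trans (hsabs e).le
            nlinarith
        _ ≤ _ := by
            apply Finset.sum_le_sum_of_subset_of_nonneg (Finset.erase_subset _ _)
            intro e _ _
            have h3 : 0 ≤ nn e.1 * nn e.2 := mul_nonneg (nn_nonneg _) (nn_nonneg _)
            linarith
    linarith

/-- barycentric coordinates of `(0, 1)` -/
def bb (s t u : ℝ) : ℝ := (1 + t * u) / ((s - t) * (s - u))

theorem core_non {N : ℕ} (F : Finset (Fin N × Fin N)) (H : ℝ) (i j k l : Fin N) (hij : i < j)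
    (hjk : j < k) (hl : l < i ∨ k < l)
    (hF : ∀ e ∈ F, 0 ≤ LL e (nn j) * LL e (nn l))
    (hH : bb (nn i) (nn j) (nn k) * hh F i + bb (nn j) (nn i) (nn k) * hh F j +
      bb (nn k) (nn i) (nn j) * hh F k < H) :
    ∃ a b cj cl cw : ℝ, 0 ≤ cj ∧ 0 < cl ∧ 0 ≤ cw ∧ cj + cl + cw = a + b ∧
      a * nn i + b * nn k = cj * nn j + cl * nn l + cw * 0 ∧
      a * nn i ^ 2 + b * nn k ^ 2 = cj * nn j ^ 2 + cl * nn l ^ 2 + cw * 1 ∧
      a * hh F i + b * hh F k = cj * hh F j + cl * hh F l + cw * H := by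
  have hi0 := nn_nonneg i
  have hk0 := nn_nonneg k
  have h1 : 0 < nn j - nn i := sub_pos.mpr (nn_lt.mpr hij)
  have h2 : 0 < nn k - nn j := sub_pos.mpr (nn_lt.mpr hjk)
  have h3 : 0 < nn k - nn i := by linarith
  have hsg : (0 < nn l - nn i ∧ 0 < nn l - nn j ∧ 0 < nn l - nn k) ∨
      (nn l - nn i < 0 ∧ nn l - nn j < 0 ∧ nn l - nn k < 0) := by
    rcases hl with h | h
    · right
      have := nn_lt.mpr h
      refine ⟨by linarith, by linarith, by linarith⟩
    · left
      have := nn_lt.mpr h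
      refine ⟨by linarith, by linarith, by linarith⟩
  set x := nn i
  set y := nn j
  set z := nn k
  set w := nn l
  have hα : 0 < (z - y) * (w - y) * (w - z) := by
    rcases hsg with ⟨a1, a2, a3⟩ | ⟨a1, a2, a3⟩
    · positivity
    · have := mul_pos_of_neg_of_neg a2 a3
      nlinarith
  have hγ : 0 < (z - x) * (w - x) * (w - z) := by
    rcases hsg with ⟨a1, a2, a3⟩ | ⟨a1, a2, a3⟩
    · positivity
    · have := mul_pos_of_neg_of_neg a1 a3
      nlinarith
  have hβ : 0 < (y - x) * (w - x) * (w - y) := by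
    rcases hsg with ⟨a1, a2, a3⟩ | ⟨a1, a2, a3⟩
    · positivity
    · have := mul_pos_of_neg_of_neg a1 a2
      nlinarith
  have hδ : 0 < (y - x) * (z - x) * (z - y) := by positivity
  have hS : 0 ≤ (z - y) * (w - y) * (w - z) * hh F i + (y - x) * (w - x) * (w - y) * hh F k -
      (z - x) * (w - x) * (w - z) * hh F j - (y - x) * (z - x) * (z - y) * hh F l := by
    unfold hh
    rw [Finset.mul_sum, Finset.mul_sum, Finset.mul_sum, Finset.mul_sum, ← Finset.sum_add_distrib,
      ← Finset.sum_sub_distrib, ← Finset.sum_sub_distrib]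
    apply Finset.sum_nonneg
    intro e he
    have h4 := hF e he
    have hid : (z - y) * (w - y) * (w - z) * LL e x + (y - x) * (w - x) * (w - y) * LL e z =
        (z - x) * (w - x) * (w - z) * LL e y + (y - x) * (z - x) * (z - y) * LL e w := by
      unfold LL; ring
    have h5 : |(z - x) * (w - x) * (w - z) * LL e y + (y - x) * (z - x) * (z - y) * LL e w| =
        (z - x) * (w - x) * (w - z) * |LL e y| + (y - x) * (z - x) * (z - y) * |LL e w| := by
      rw [(abs_add_eq_add_abs_iff _ _).mpr, abs_mul ((z - x) * (w - x) * (w - z)) (LL e y),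
        abs_mul ((y - x) * (z - x) * (z - y)) (LL e w), abs_of_pos hγ, abs_of_pos hδ]
      by_cases h6 : 0 ≤ LL e y
      · by_cases h7 : 0 ≤ LL e w
        · left; exact ⟨mul_nonneg hγ.le h6, mul_nonneg hδ.le h7⟩
        · push Not at h7
          have h8 : LL e y = 0 := by
            by_contra h9
            have : 0 < LL e y := lt_of_le_of_ne h6 (Ne.symm h9)
            nlinarith
          right
          rw [h8]
          exact ⟨by simp, by nlinarith⟩
      · push Not at h6
        have h7 : LL e w ≤ 0 := by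
          by_contra h8
          push Not at h8
          nlinarith
        right
        exact ⟨by nlinarith, by nlinarith⟩
    have h6 : |(z - y) * (w - y) * (w - z) * LL e x + (y - x) * (w - x) * (w - y) * LL e z| ≤
        (z - y) * (w - y) * (w - z) * |LL e x| + (y - x) * (w - x) * (w - y) * |LL e z| := by
      calc _ ≤ |(z - y) * (w - y) * (w - z) * LL e x| + |(y - x) * (w - x) * (w - y) * LL e z| :=
            abs_add_le _ _
        _ = _ := by
            rw [abs_mul ((z - y) * (w - y) * (w - z)) (LL e x),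
              abs_mul ((y - x) * (w - x) * (w - y)) (LL e z), abs_of_pos hα, abs_of_pos hβ]
    rw [hid, h5] at h6
    linarith
  set S := (z - y) * (w - y) * (w - z) * hh F i + (y - x) * (w - x) * (w - y) * hh F k -
      (z - x) * (w - x) * (w - z) * hh F j - (y - x) * (z - x) * (z - y) * hh F l with hSdef
  set H' := H - (bb x y z * hh F i + bb y x z * hh F j + bb z x y * hh F k) with hH'def
  have hH' : 0 < H' := by rw [hH'def]; linarith
  have e1 : bb x y z + bb y x z + bb z x y = 1 := by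
    have a1 : x - y ≠ 0 := by linarith
    have a2 : x - z ≠ 0 := by linarith
    have a3 : y - x ≠ 0 := by linarith
    have a4 : y - z ≠ 0 := by linarith
    have a5 : z - x ≠ 0 := by linarith
    have a6 : z - y ≠ 0 := by linarith
    unfold bb
    field_simp
    ring
  have e2 : bb x y z * x + bb y x z * y + bb z x y * z = 0 := by
    have a1 : x - y ≠ 0 := by linarith
    have a2 : x - z ≠ 0 := by linarith
    have a3 : y - x ≠ 0 := by linarith
    have a4 : y - z ≠ 0 := by linarith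
    have a5 : z - x ≠ 0 := by linarith
    have a6 : z - y ≠ 0 := by linarith
    unfold bb
    field_simp
    ring
  have e3 : bb x y z * x ^ 2 + bb y x z * y ^ 2 + bb z x y * z ^ 2 = 1 := by
    have a1 : x - y ≠ 0 := by linarith
    have a2 : x - z ≠ 0 := by linarith
    have a3 : y - x ≠ 0 := by linarith
    have a4 : y - z ≠ 0 := by linarith
    have a5 : z - x ≠ 0 := by linarith
    have a6 : z - y ≠ 0 := by linarith
    unfold bb
    field_simp
    ring
  have hbj : bb y x z ≤ 0 := by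
    unfold bb
    apply div_nonpos_of_nonneg_of_nonpos
    · positivity
    · nlinarith
  set θ := S / H' with hθ
  have hθ0 : 0 ≤ θ := div_nonneg hS hH'.le
  have hθH : θ * H' = S := by rw [hθ]; field_simp
  refine ⟨(z - y) * (w - y) * (w - z) + θ * bb x y z, (y - x) * (w - x) * (w - y) + θ * bb z x y,
    (z - x) * (w - x) * (w - z) - θ * bb y x z, (y - x) * (z - x) * (z - y), θ, ?_, hδ, hθ0,
    ?_, ?_, ?_, ?_⟩
  · have := mul_nonneg hθ0 (neg_nonneg.mpr hbj)
    linarith
  · linear_combination (-θ) * e1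
  · linear_combination θ * e2
  · linear_combination θ * e3
  · rw [hSdef] at hθH
    rw [hH'def] at hθH
    linear_combination -hθH

theorem r3geo : S_R3geo := by
  intro gen nc V _ G ⟨m, c, hham, hcr⟩
  classical
  set A : Fin (m + 3) → Fin (m + 3) → Prop := fun i j => G.Adj (c i) (c j) with hA
  have hAs : ∀ i j, A i j → A j i := fun i j h => h.symm
  set F : Finset (Fin (m + 3) × Fin (m + 3)) :=
    Finset.univ.filter (fun e => e.1 < e.2 ∧ A e.1 e.2) with hFdef
  have hmemF : ∀ e, e ∈ F ↔ e.1 < e.2 ∧ A e.1 e.2 := by intro e; simp [hFdef]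
  let i0 : Fin (m + 3) := ⟨0, by omega⟩
  let i1 : Fin (m + 3) := ⟨1, by omega⟩
  let i2 : Fin (m + 3) := ⟨2, by omega⟩
  have n0 : nn i0 = 0 := by simp [nn, i0]
  have n1 : nn i1 = 1 := by simp [nn, i1]
  have n2 : nn i2 = 2 := by simp [nn, i2]
  have hev : ∀ᶠ H : ℝ in atTop,
      (hh F i0 + (hh F i0 + hh F i2) / 2 - hh F i1 < H) ∧ (∀ j, hh F j < H) ∧
      (∀ i j, (1 + nn i ^ 2) * (hh F j - hh F i) + hh F i < H) ∧
      (∑ e ∈ F, (1 + nn e.1 * nn e.2) < H) ∧
      (∀ i j k : Fin (m + 3), bb (nn i) (nn j) (nn k) * hh F i + bb (nn j) (nn i) (nn k) * hh F j +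
        bb (nn k) (nn i) (nn j) * hh F k < H) := by
    refine (eventually_gt_atTop _).and ((eventually_all.mpr fun j => eventually_gt_atTop _).and
      ((eventually_all.mpr fun i => eventually_all.mpr fun j => eventually_gt_atTop _).and
      ((eventually_gt_atTop _).and (eventually_all.mpr fun i => eventually_all.mpr fun j =>
        eventually_all.mpr fun k => eventually_gt_atTop _))))
  obtain ⟨H, h1, h2, h3, h4, h5⟩ := hev.exists
  set p : V ⊕ Fin 1 → E3 := Sum.elim
    (fun v => pt (nn (c.symm v)) (nn (c.symm v) ^ 2) (hh F (c.symm v))) (fun _ => pt 0 1 H) with hp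
  have hpl : ∀ i, p (Sum.inl (c i)) = pt (nn i) (nn i ^ 2) (hh F i) := by
    intro i; simp [hp]
  have hpr : ∀ f, p (Sum.inr f) = pt 0 1 H := by intro f; simp [hp]
  -- all elements of the index set
  have hall : ∀ Q : V ⊕ Fin 1 → Prop, (∀ i, Q (Sum.inl (c i))) → Q (Sum.inr 0) → ∀ x, Q x := by
    rintro Q q1 q2 (v | f)
    · have := q1 (c.symm v)
      rwa [Equiv.apply_symm_apply] at this
    · rw [Subsingleton.elim f 0]
      exact q2
  have hinl : ∀ i j, (Sum.inl (c i) : V ⊕ Fin 1) = Sum.inl (c j) ↔ i = j := by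
    intro i j
    rw [Sum.inl.injEq, EmbeddingLike.apply_eq_iff_eq]
  -- edges
  have hedge : ∀ i k, i < k → A i k → ∃ (l : E3 →L[ℝ] ℝ) (b : ℝ), l (p (Sum.inl (c i))) + b ≤ 0 ∧
      l (p (Sum.inl (c k))) + b ≤ 0 ∧
      ∀ w, w ≠ Sum.inl (c i) → w ≠ Sum.inl (c k) → 0 < l (p w) + b := by
    intro i k hik hAik
    obtain ⟨α, β, γ, b, g1, g2, g3⟩ := core_edge F H h4 i k ((hmemF (i, k)).mpr ⟨hik, hAik⟩) (by
      intro e he hne
      have he' := (hmemF e).mp he
      obtain ⟨a, b⟩ := e
      obtain ⟨hab, hAab⟩ := he'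
      simp only at hab hAab
      by_contra hcon
      push Not at hcon
      -- crossing
      have q : (a < i ∧ i < b ∧ b < k) ∨ (i < a ∧ a < k ∧ k < b) := by
        unfold LL at hcon
        simp only at hcon
        have hik' := nn_lt.mpr hik
        have hab' := nn_lt.mpr hab
        rcases mul_neg_iff.mp hcon with ⟨u1, u2⟩ | ⟨u1, u2⟩
        · right
          rcases mul_neg_iff.mp u2 with ⟨v1, v2⟩ | ⟨v1, v2⟩
          · rcases mul_pos_iff.mp u1 with ⟨w1, w2⟩ | ⟨w1, w2⟩
            · exfalso; linarith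
            · refine ⟨nn_lt.mp (by linarith), nn_lt.mp (by linarith), nn_lt.mp (by linarith)⟩
          · exfalso; linarith
        · left
          rcases mul_neg_iff.mp u1 with ⟨v1, v2⟩ | ⟨v1, v2⟩
          · rcases mul_pos_iff.mp u2 with ⟨w1, w2⟩ | ⟨w1, w2⟩
            · refine ⟨nn_lt.mp (by linarith), nn_lt.mp (by linarith), nn_lt.mp (by linarith)⟩
            · exfalso; linarith
          · exfalso; linarith
      rcases q with ⟨q1, q2, q3⟩ | ⟨q1, q2, q3⟩
      · exact hcr a i b k q1 q2 q3 ⟨hAab, hAik⟩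
      · exact hcr i a k b q1 q2 q3 ⟨hAik, hAab⟩)
    refine ⟨lf α β γ, b, ?_, ?_, ?_⟩
    · rw [hpl, lf_pt]; exact (g1 i (Or.inl rfl)).le
    · rw [hpl, lf_pt]; exact (g1 k (Or.inr rfl)).le
    · apply hall
      · intro j hj1 hj2
        rw [hpl, lf_pt]
        exact g2 j (fun h => hj1 ((hinl _ _).mpr h)) (fun h => hj2 ((hinl _ _).mpr h))
      · intro _ _
        rw [hpr, lf_pt]
        exact g3
  -- the edges to the apex
  have hcone : ∀ i, ∃ (l : E3 →L[ℝ] ℝ) (b : ℝ), l (p (Sum.inl (c i))) + b ≤ 0 ∧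
      l (p (Sum.inr 0)) + b ≤ 0 ∧
      ∀ w, w ≠ Sum.inl (c i) → w ≠ Sum.inr 0 → 0 < l (p w) + b := by
    intro i
    have hHi : 0 < H - hh F i := sub_pos.mpr (h2 i)
    set κ : ℝ := (1 + nn i ^ 2) / (H - hh F i) with hκ
    have hκ0 : 0 < κ := by positivity
    have hκH : κ * (H - hh F i) = 1 + nn i ^ 2 := by rw [hκ]; field_simp
    refine ⟨lf (-2 * nn i) 1 (-κ), nn i ^ 2 + κ * hh F i, ?_, ?_, ?_⟩
    · rw [hpl, lf_pt]
      apply le_of_eq
      ring
    · rw [hpr, lf_pt]
      apply le_of_eq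
      linear_combination -hκH
    · apply hall
      · intro j hj _
        rw [hpl, lf_pt]
        have hji : i ≠ j := fun h => hj ((hinl _ _).mpr h.symm)
        have g1 := nn_sq hji
        have g2 : κ * (hh F j - hh F i) < 1 := by
          rw [hκ, div_mul_eq_mul_div, div_lt_one hHi]
          linarith [h3 i j]
        nlinarith
      · intro _ h
        exact absurd rfl h
  -- the missing edges
  have hnon : ∀ i k, i < k → ¬ A i k → ∃ (a b : ℝ) (cc : V ⊕ Fin 1 → ℝ) (w : V ⊕ Fin 1),
      w ≠ Sum.inl (c i) ∧ w ≠ Sum.inl (c k) ∧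
      (∀ x, 0 ≤ cc x) ∧ 0 < cc w ∧ ∑ x, cc x = a + b ∧
      a • p (Sum.inl (c i)) + b • p (Sum.inl (c k)) = ∑ x, cc x • p x := by
    intro i k hik hn
    obtain ⟨j, l, hij, hjk, hl, hjl⟩ := nc m A hAs hham hcr i k hik hn
    obtain ⟨a, b, cj, cl, cw, g1, g2, g3, g4, g5, g6, g7⟩ := core_non F H i j k l hij hjk hl
      (fun e he => hjl e.1 e.2 ((hmemF e).mp he).1 ((hmemF e).mp he).2) (h5 i j k)
    have hli : l ≠ i := by
      rcases hl with h | h
      · exact ne_of_lt h
      · exact ne_of_gt (hik.trans h)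
    have hlk : l ≠ k := by
      rcases hl with h | h
      · exact ne_of_lt (h.trans hik)
      · exact ne_of_gt h
    refine ⟨a, b, fun x => (if x = Sum.inl (c j) then cj else 0) +
      (if x = Sum.inl (c l) then cl else 0) + (if x = Sum.inr 0 then cw else 0), Sum.inl (c l),
      fun h => hli ((hinl _ _).mp h), fun h => hlk ((hinl _ _).mp h), ?_, ?_, ?_, ?_⟩
    · intro x
      have q1 : 0 ≤ (if x = Sum.inl (c j) then cj else 0) := by split_ifs <;> linarith
      have q2 : 0 ≤ (if x = Sum.inl (c l) then cl else 0) := by split_ifs <;> linarith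
      have q3 : 0 ≤ (if x = (Sum.inr 0 : V ⊕ Fin 1) then cw else 0) := by split_ifs <;> linarith
      positivity
    · have q1 : 0 ≤ (if (Sum.inl (c l) : V ⊕ Fin 1) = Sum.inl (c j) then cj else 0) := by
        split_ifs <;> linarith
      have q3 : 0 ≤ (if (Sum.inl (c l) : V ⊕ Fin 1) = Sum.inr 0 then cw else 0) := by
        split_ifs <;> linarith
      simp only [if_true]
      linarith
    · rw [Finset.sum_add_distrib, Finset.sum_add_distrib, Finset.sum_ite_eq', Finset.sum_ite_eq',
        Finset.sum_ite_eq']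
      simpa using g4
    · simp only [add_smul, ite_smul, zero_smul]
      rw [Finset.sum_add_distrib, Finset.sum_add_distrib, Finset.sum_ite_eq', Finset.sum_ite_eq',
        Finset.sum_ite_eq']
      simp only [Finset.mem_univ, if_true]
      rw [hpl, hpl, hpl, hpl, hpr, smul_pt, smul_pt, smul_pt, smul_pt, smul_pt, pt_add, pt_add,
        pt_add, g5, g6, g7]
  let QE : V ⊕ Fin 1 → V ⊕ Fin 1 → Prop := fun u v => ∃ (l : E3 →L[ℝ] ℝ) (b : ℝ),
    l (p u) + b ≤ 0 ∧ l (p v) + b ≤ 0 ∧ ∀ w, w ≠ u → w ≠ v → 0 < l (p w) + b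
  let QN : V ⊕ Fin 1 → V ⊕ Fin 1 → Prop := fun u v => ∃ (a b : ℝ) (cc : V ⊕ Fin 1 → ℝ)
    (w : V ⊕ Fin 1), w ≠ u ∧ w ≠ v ∧ (∀ x, 0 ≤ cc x) ∧ 0 < cc w ∧ ∑ x, cc x = a + b ∧
      a • p u + b • p v = ∑ x, cc x • p x
  apply gen 3 (V ⊕ Fin 1) (joinComplete G 1) p
  · intro l b hl
    have a0 := hl (Sum.inl (c i0))
    have a1 := hl (Sum.inl (c i1))
    have a2 := hl (Sum.inl (c i2))
    have a3 := hl (Sum.inr 0)
    rw [hpl, pt_lin, n0] at a0
    rw [hpl, pt_lin, n1] at a1
    rw [hpl, pt_lin, n2] at a2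
    rw [hpr, pt_lin] at a3
    have z1 : l (pt 0 0 1) * (H - (hh F i0 + (hh F i0 + hh F i2) / 2 - hh F i1)) = 0 := by
      linear_combination a3 - a0 / 2 * 3 + a1 - a2 / 2
    have z2 : l (pt 0 0 1) = 0 := by
      rcases mul_eq_zero.mp z1 with h | h
      · exact h
      · linarith
    rw [z2] at a0 a1 a2 a3
    have z3 : b = 0 := by linarith
    have z4 : l (pt 0 1 0) = 0 := by linarith
    have z5 : l (pt 1 0 0) = 0 := by linarith
    refine ContinuousLinearMap.ext fun v => ?_
    rw [eq_pt v, pt_lin, z2, z4, z5]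
    simp
  · apply hall
    · intro i
      refine ⟨lf (-2 * nn i) 1 0, nn i ^ 2, ?_, ?_⟩
      · rw [hpl, lf_pt]; ring
      · apply hall
        · intro j hj
          rw [hpl, lf_pt]
          have hji : i ≠ j := fun h => hj ((hinl _ _).mpr h.symm)
          nlinarith [nn_sq hji]
        · intro _
          rw [hpr, lf_pt]
          nlinarith [sq_nonneg (nn i)]
    · refine ⟨lf 0 0 (-1), H, ?_, ?_⟩
      · rw [hpr, lf_pt]; ring
      · apply hall
        · intro j _
          rw [hpl, lf_pt]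
          linarith [h2 j]
        · intro h; exact absurd rfl h
  · refine hall (fun u => ∀ v, (joinComplete G 1).Adj u v → QE u v) ?_ ?_
    · intro i
      refine hall (fun v => (joinComplete G 1).Adj (Sum.inl (c i)) v → QE (Sum.inl (c i)) v) ?_ ?_
      · intro k hadj
        have hAik : A i k := hadj.2 _ _ rfl rfl
        rcases lt_trichotomy i k with h | h | h
        · exact hedge i k h hAik
        · exact absurd (by rw [h]) hadj.1
        · obtain ⟨l, b, q1, q2, q3⟩ := hedge k i h (hAs _ _ hAik)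
          exact ⟨l, b, q2, q1, fun w w1 w2 => q3 w w2 w1⟩
      · intro _
        exact hcone i
    · refine hall (fun v => (joinComplete G 1).Adj (Sum.inr 0) v → QE (Sum.inr 0) v) ?_ ?_
      · intro k _
        obtain ⟨l, b, q1, q2, q3⟩ := hcone k
        exact ⟨l, b, q2, q1, fun w w1 w2 => q3 w w2 w1⟩
      · intro h
        exact absurd rfl h.1
  · refine hall (fun u => ∀ v, u ≠ v → ¬ (joinComplete G 1).Adj u v → QN u v) ?_ ?_
    · intro i
      refine hall (fun v => (Sum.inl (c i) : V ⊕ Fin 1) ≠ v →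
        ¬ (joinComplete G 1).Adj (Sum.inl (c i)) v → QN (Sum.inl (c i)) v) ?_ ?_
      · intro k hne hadj
        have hnA : ¬ A i k := by
          intro h
          apply hadj
          refine ⟨hne, ?_⟩
          intro u v hu hv
          rw [← Sum.inl.inj hu, ← Sum.inl.inj hv]
          exact h
        rcases lt_trichotomy i k with h | h | h
        · exact hnon i k h hnA
        · exact absurd (by rw [h]) hne
        · obtain ⟨a, b, cc, w, q1, q2, q3, q4, q5, q6⟩ := hnon k i h (fun h => hnA (hAs _ _ h))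
          exact ⟨b, a, cc, w, q2, q1, q3, q4, by rw [q5, add_comm], by rw [← q6, add_comm]⟩
      · intro hne hadj
        exfalso
        apply hadj
        refine ⟨hne, ?_⟩
        intro u v _ hv
        exact absurd hv (by simp)
    · intro v hne hadj
      exfalso
      apply hadj
      refine ⟨hne, ?_⟩
      intro u v hu
      exact absurd hu (by simp)

end

end Pool.Agent.W2helper24.DG
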